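import Pool.Agent.Helper20.PNS.Main

/-!
Let `n ≥ 3`.  If `|p - 2|` is at most a constant divided by a power of `J`, then for every
weak solution of the p-Laplace equation whose energy grows at most by the factor `2^J` from
a ball to a fixed multiple of it, the modulus of the gradient is a Muckenhoupt weight in the
smaller ball, with exponent and constant depending only on `n` and `J`.
-/

open scoped NNReal

namespace Pool.Agent.Results.MP_bc0202_an.BoundedDoubling

open Pool.Agent.Helper20.PNS

/-- Let `n ≥ 3`. There are `c > 0` and `m` so that for all `J ≥ 1` there are `q > 1` and `C` so that the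
local bound (`LocalBound` in `Pool/Agent/Helper20/PNS/Defs.lean`) holds in `ℝ ^ n` for all `p` with
`|p - 2| ≤ c / J ^ m`. -/
theorem result (n : ℕ) (hn : 3 ≤ n) : ∃ c : ℝ, ∃ m : ℕ, 0 < c ∧ ∀ J : ℕ, 1 ≤ J →
    ∃ q : ℝ, 1 < q ∧ ∃ C : ℝ≥0, ∀ p : ℝ, |p - 2| ≤ c / (J : ℝ) ^ m →
      LocalBound (EuclideanSpace ℝ (Fin n)) n p J q C :=
  main_local n hn

end Pool.Agent.Results.MP_bc0202_an.BoundedDoubling
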