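import Pool.Agent.Helper20.PNS.Main

/-!
Let `n ≥ 3` and `d ≥ 0`.  If `|p - 2|` is at most a constant divided by a power of `1 + d`,
then for every non constant entire solution of the p-Laplace equation of growth at most
`|x|^d` the modulus of the gradient is a Muckenhoupt weight in the whole space, with exponent
and constant depending only on `n` and `d`.
-/

open scoped NNReal

namespace Pool.Agent.Results.MP_bc0202_an.EntireSolutions

open Pool.Agent.Helper20.PNS

/-- Let `n ≥ 3`. There are `c > 0` and `m` so that for all `d ≥ 0` there are `q > 1` and `C` so that the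
bound for entire solutions (`EntireBound` in `Pool/Agent/Helper20/PNS/Defs.lean`) holds in `ℝ ^ n` for
all `p` with `|p - 2| ≤ c / (1 + d) ^ m`. -/
theorem result (n : ℕ) (hn : 3 ≤ n) : ∃ c : ℝ, ∃ m : ℕ, 0 < c ∧ ∀ d : ℝ, 0 ≤ d →
    ∃ q : ℝ, 1 < q ∧ ∃ C : ℝ≥0, ∀ p : ℝ, |p - 2| ≤ c / (1 + d) ^ m →
      EntireBound (EuclideanSpace ℝ (Fin n)) p d q C :=
  main_entire n hn

end Pool.Agent.Results.MP_bc0202_an.EntireSolutions
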